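import Pool.Agent.MP_3ce0a0_al.H79.XS
import Pool.Agent.MP_3ce0a0_al.H79.XJ

/-
The local inequality between the dimensions of neighbouring sectors.
-/

namespace Pool.Agent.MP_3ce0a0_al.H51

open Equiv Module Finset Pool.Agent.MP_3ce0a0_al.H62.Inst Pool.Agent.MP_3ce0a0_al.H79.X

namespace Loc

section lin
variable {H : Type} [AddCommGroup H] [Module ℂ H] [FiniteDimensional ℂ H]

/-- the part of order three in the even half is bounded by the defect. -/
lemma small_z {S r : End ℂ H} (hS : S * S * (S * S) = 1) (her : Commute (S * S) r) (hr : Uni r) :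
    2 * (finrank ℂ (LinearMap.ker (S * r * (S * r) + S * r + 1) ⊓ End.eigenspace (S * S) 1 :
      Submodule ℂ H) : ℝ) ≤ (LinearMap.trace ℂ H 1 - LinearMap.trace ℂ H S +
        LinearMap.trace ℂ H (S * S) - LinearMap.trace ℂ H (S * (S * S))).re := by
  obtain ⟨p, hp⟩ : ∃ p : End ℂ H, p = (1 / 4 : ℂ) • (1 - S + S * S - S * (S * S)) := ⟨_, rfl⟩
  have h5 : S * (S * (S * S)) = 1 := by rw [← hS]; simp only [mul_assoc]
  have pp : p * p = p := by
    rw [hp, smul_mul_smul_comm]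
    simp only [mul_add, add_mul, mul_sub, sub_mul, mul_one, one_mul, mul_assoc, h5]
    module
  have tp := trace_idem (Q := ⊤) pp fun _ _ => trivial
  rw [trOn_top, top_inf_eq] at tp
  have t2 : LinearMap.trace ℂ H 1 - LinearMap.trace ℂ H S + LinearMap.trace ℂ H (S * S) -
      LinearMap.trace ℂ H (S * (S * S)) = 4 * LinearMap.trace ℂ H p := by
    rw [hp]; simp only [map_smul, map_sub, map_add, smul_eq_mul]; ring
  rw [t2, tp]
  obtain ⟨K, hK⟩ : ∃ K : Submodule ℂ H, K = LinearMap.ker (S * r * (S * r) + S * r + 1) ⊓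
    End.eigenspace (S * S) 1 := ⟨_, rfl⟩
  rw [← hK]
  have mem : ∀ y : End ℂ H, ∀ v : K, (p * y) v ∈ End.eigenspace p 1 := fun y v => by
    rw [End.mem_eigenspace_iff, one_smul, ← End.mul_apply, ← mul_assoc, pp]
  let φ : K →ₗ[ℂ] End.eigenspace p 1 × End.eigenspace p 1 :=
    (((p * r).domRestrict K).codRestrict _ (mem r)).prod
      (((p * (r * (S * r))).domRestrict K).codRestrict _ (mem _))
  have key : ∀ w, S (S w) = w → p (r w) = 0 → S (r w) = r w := fun w h1 h2 => by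
    have e : S (S (r w)) = r w := by
      have := DFunLike.congr_fun her.eq w
      simpa [h1] using this
    rw [hp] at h2
    simp only [LinearMap.smul_apply, LinearMap.sub_apply, LinearMap.add_apply, End.mul_apply,
      End.one_apply, e] at h2
    have : (1 / 2 : ℂ) • (S (r w) - r w) = 0 := by rw [← neg_eq_zero, ← h2]; module
    exact sub_eq_zero.1 ((smul_eq_zero.1 this).resolve_left (by norm_num))
  have inj : Function.Injective φ := by
    rw [injective_iff_map_eq_zero]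
    rintro ⟨v, hv⟩ h
    have a1 : p (r v) = 0 := congrArg (fun z => (z.1 : H)) h
    have a2 : p (r (S (r v))) = 0 := congrArg (fun z => (z.2 : H)) h
    rw [hK] at hv
    have b1 : S (r (S (r v))) + S (r v) + v = 0 := hv.1
    have b2 : S (S v) = v := by simpa using End.mem_eigenspace_iff.1 hv.2
    have c1 := key v b2 a1
    have c2 := key (S (r v)) (by rw [c1, c1, c1]) a2
    rw [c2, c1] at b1
    have u : IsUnit ((r - 1) * (r + 2) + (3 : ℂ) • 1) :=
      IsNilpotent.isUnit_add_right_of_commute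
        ((Commute.sub_left (Commute.add_right (.refl r) (.ofNat_right r 2))
          (.one_left _)).isNilpotent_mul_right hr)
        ((isUnit_iff_exists.2 ⟨(1 / 3 : ℂ) • 1, by simp [smul_smul], by simp [smul_smul]⟩))
        (Commute.smul_right (.one_right _) _)
    refine Subtype.ext ((End.isUnit_iff _).1 u |>.1 ?_)
    rw [ZeroMemClass.coe_zero, map_zero, ← b1]
    simp only [LinearMap.add_apply, End.mul_apply, LinearMap.sub_apply, End.one_apply,
      LinearMap.smul_apply, map_add, End.ofNat_apply, map_nsmul]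
    module
  have := LinearMap.finrank_le_finrank_of_injective inj
  rw [Module.finrank_prod] at this
  have h' : (finrank ℂ K : ℝ) ≤ finrank ℂ (End.eigenspace p 1) + finrank ℂ (End.eigenspace p 1) := by
    exact_mod_cast this
  simp only [Complex.mul_re, Complex.re_ofNat, Complex.natCast_re, Complex.im_ofNat,
    Complex.natCast_im]
  linarith

/-- the fixed part of the odd half is bounded through the trace. -/
lemma small_x {c e : End ℂ H} (he : e * e = 1) (hc : c ^ 3 = 1) (hce : Commute c e) :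
    6 * (finrank ℂ (End.eigenspace c 1 ⊓ End.eigenspace e (-1) : Submodule ℂ H) : ℝ) +
      (LinearMap.trace ℂ H 1 + 3 * LinearMap.trace ℂ H e - 4 * LinearMap.trace ℂ H c).re ≤
    6 * finrank ℂ (LinearMap.ker (c * c + c + 1) ⊓ End.eigenspace e 1 : Submodule ℂ H) := by
  have ee : ∀ v, e (e v) = v := fun v => by rw [← End.mul_apply, he, End.one_apply]
  have c3 : ∀ v, (c ^ 3) v = v := fun v => by rw [hc, End.one_apply]
  obtain ⟨i1, i2⟩ := trOn_invol (f := e) (Q := ⊤) (fun _ _ => trivial) fun v _ => ee v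
  rw [trOn_top, top_inf_eq, finrank_top] at i1
  rw [top_inf_eq, top_inf_eq, finrank_top] at i2
  have k1 := keeps_eig hce 1
  have k2 := keeps_eig hce (-1)
  have j1 := re_trOn_cube k1 fun v _ => c3 v
  have j2 := re_trOn_cube k2 fun v _ => c3 v
  have dj : Disjoint (End.eigenspace e 1) (End.eigenspace e (-1)) :=
    e.eigenspaces_iSupIndep.pairwiseDisjoint (by norm_num)
  have sp : End.eigenspace e 1 ⊔ End.eigenspace e (-1) = ⊤ :=
    Submodule.eq_top_of_finrank_eq (by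
      have := Submodule.finrank_sup_add_finrank_inf_eq (End.eigenspace e 1) (End.eigenspace e (-1))
      rw [dj.eq_bot, finrank_bot] at this
      omega)
  have j3 := trOn_sup k1 k2 dj
  rw [sp, trOn_top] at j3
  have mem : ∀ v : End.eigenspace e 1,
      (c - 1) v ∈ LinearMap.ker (c * c + c + 1) ⊓ End.eigenspace e 1 := fun v => by
    refine ⟨?_, Submodule.sub_mem _ (k1 _ v.2) v.2⟩
    have : (c * c + c + 1) * (c - 1) = c ^ 3 - 1 := by noncomm_ring
    change ((c * c + c + 1) * (c - 1)) v = 0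
    rw [this, hc, sub_self, LinearMap.zero_apply]
  have j4 := LinearMap.finrank_range_add_finrank_ker
    (((c - 1).domRestrict (End.eigenspace e 1)).codRestrict _ mem)
  have j5 := Submodule.finrank_le (LinearMap.range
    (((c - 1).domRestrict (End.eigenspace e 1)).codRestrict _ mem))
  have j6 : finrank ℂ (LinearMap.ker (((c - 1).domRestrict (End.eigenspace e 1)).codRestrict _ mem))
      ≤ finrank ℂ (End.eigenspace e 1 ⊓ End.eigenspace c 1 : Submodule ℂ H) := by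
    rw [← Submodule.finrank_map_subtype_eq]
    refine Submodule.finrank_mono ?_
    rintro _ ⟨v, hv, rfl⟩
    refine ⟨v.2, End.mem_eigenspace_iff.2 ?_⟩
    have : c v - v = 0 := congrArg Subtype.val hv
    rw [one_smul]
    exact sub_eq_zero.1 this
  have j7 : (finrank ℂ (End.eigenspace e 1) : ℝ) ≤
      finrank ℂ (LinearMap.ker (c * c + c + 1) ⊓ End.eigenspace e 1 : Submodule ℂ H) +
      finrank ℂ (End.eigenspace e 1 ⊓ End.eigenspace c 1 : Submodule ℂ H) := by
    exact_mod_cast (by omega)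
  have i3 : (finrank ℂ H : ℝ) =
      finrank ℂ (End.eigenspace e 1) + finrank ℂ (End.eigenspace e (-1)) := by exact_mod_cast i2
  rw [inf_comm (End.eigenspace c 1), i1, j3, LinearMap.trace_one]
  simp only [Complex.mul_re, Complex.re_ofNat, Complex.natCast_re, Complex.im_ofNat,
    Complex.natCast_im, Complex.add_re, Complex.sub_re, Complex.sub_im, Complex.mul_im]
  linarith

/-- two commuting involutions with small defects. -/
lemma two_inv {s t : End ℂ H} {E : Submodule ℂ H} {σ : ℕ} (ks : Keeps s E) (kt : Keeps t E)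
    (hs : ∀ v ∈ E, s (s v) = v) (ht : ∀ v ∈ E, t (t v) = v) (c : Commute s t)
    (ds : finrank ℂ (E ⊓ End.eigenspace s (-1) : Submodule ℂ H) ≤ σ)
    (dt : finrank ℂ (E ⊓ End.eigenspace t (-1) : Submodule ℂ H) ≤ σ) :
    (finrank ℂ E : ℝ) - 4 * σ ≤ (trOn (s * t) E).re := by
  have cm : ∀ v, s (t v) = t (s v) := fun v => DFunLike.congr_fun c.eq v
  have i1 := (trOn_invol (ks.mul kt) fun v hv => by
    rw [End.mul_apply, End.mul_apply, ← cm, ht v hv, hs v hv]).1
  have i2 := (trOn_invol (ks.inf (keeps_eig ((Commute.refl s).mul_right c) (-1)))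
    fun v hv => hs v hv.1).2
  have a1 : finrank ℂ (E ⊓ End.eigenspace (s * t) (-1) ⊓ End.eigenspace s 1 : Submodule ℂ H) ≤ σ := by
    refine le_trans (Submodule.finrank_mono ?_) dt
    rintro v ⟨⟨h1, h2⟩, h3⟩
    refine ⟨h1, End.mem_eigenspace_iff.2 ?_⟩
    rw [← End.mem_eigenspace_iff.1 h2, End.mul_apply, cm, End.mem_eigenspace_iff.1 h3, one_smul]
  have a2 : finrank ℂ (E ⊓ End.eigenspace (s * t) (-1) ⊓ End.eigenspace s (-1) : Submodule ℂ H) ≤
      σ := le_trans (Submodule.finrank_mono (inf_le_inf_right _ inf_le_left)) ds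
  have a3 : (finrank ℂ (E ⊓ End.eigenspace (s * t) (-1) : Submodule ℂ H) : ℝ) ≤ σ + σ := by
    exact_mod_cast (by omega)
  rw [i1]
  simp only [Complex.mul_re, Complex.re_ofNat, Complex.natCast_re, Complex.im_ofNat,
    Complex.natCast_im, Complex.sub_re]
  linarith

/-- the inequality in the graded module, in terms of traces of group elements. -/
lemma core (h3 : SLin) {G : Type} [Group G] (ρ : G →* End ℂ H) (τ : G → ℂ)
    (hτ : ∀ g, LinearMap.trace ℂ H (ρ g) = τ g) {S r t h c c' e e' : G} (hc : c = S * r)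
    (he : e = S * S) (e2 : e * e = 1) (c3 : c ^ 3 = 1) (h2 : h * h = 1) (t2 : t * t = 1)
    (hc' : h * c * h = c') (he' : h * e * h = e') (m1 : Commute c c') (m2 : Commute c e')
    (m3 : Commute e e') (m4 : t * c * t = c * c) (m5 : Commute t c') (m6 : Commute t (h * t * h))
    (her : Commute (ρ e) (ρ r)) (hr : Uni (ρ r)) :
    48 * (τ (c * c') - τ (h * (c * c'))).re ≤
      3 * (τ 1 - τ e + 7 * τ e' + 9 * τ (e * e') - 2 * τ h - 6 * τ (h * e) - 6 * τ (h * e') -
        2 * τ (h * (e * e'))).re + 768 * (τ 1 - τ S + τ e - τ (S * e)).re -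
      128 * (τ 1 + 3 * τ e - 4 * τ c).re := by
  have E2 : ρ e * ρ e = 1 := by rw [← map_mul, e2, map_one]
  have C3 : ρ c ^ 3 = 1 := by rw [← map_pow, c3, map_one]
  have hce : Commute (ρ c) (ρ e) := by
    rw [hc, map_mul]
    exact Commute.mul_left (by rw [he, map_mul]; exact (Commute.refl _).mul_right (.refl _))
      her.symm
  have L := h3 H (ρ c) (ρ c') (ρ e) (ρ e') (ρ h) (ρ t) ((1 / 2 : ℂ) • (1 + ρ e))
    ((1 / 2 : ℂ) • (1 + ρ e')) C3 E2 (by rw [← map_mul, h2, map_one])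
    (by rw [← map_mul, t2, map_one]) (by rw [← map_mul, ← map_mul, hc'])
    (by rw [← map_mul, ← map_mul, he']) (m1.map ρ) hce (m2.map ρ) (m3.map ρ)
    (by rw [← map_mul, ← map_mul, m4, map_mul]) (m5.map ρ)
    (by rw [← map_mul, ← map_mul]; exact m6.map ρ) (by simp [smul_smul]) (by simp [smul_smul])
  have X := small_x E2 C3 hce
  have Z := small_z (S := ρ S) (r := ρ r) (by rw [← map_mul, ← he, E2])
    (by rw [← map_mul, ← he]; exact her) hr
  rw [← map_mul, ← hc, ← map_mul ρ S S, ← he] at Z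
  have o : ∀ x : End ℂ H, 1 - (1 / 2 : ℂ) • (1 + x) = (1 / 2 : ℂ) • (1 - x) := fun x => by module
  simp only [← hτ, map_mul, map_one]
  simp only [o, smul_mul_assoc, mul_smul_comm, mul_add, add_mul, mul_sub, sub_mul, mul_one,
    one_mul, map_smul, map_add, map_sub, smul_eq_mul, Nat.cast_add] at L
  simp only [Complex.mul_re, Complex.re_ofNat, Complex.im_ofNat, Complex.add_re, Complex.sub_re,
    Complex.div_ofNat_re, Complex.div_ofNat_im, Complex.one_re, Complex.one_im, Complex.mul_im]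
    at L X Z ⊢
  linarith

section four
variable {x : Fin 4 → End ℂ H} {Q : Submodule ℂ H} {f g y y' : End ℂ H} {π π' : Perm (Fin 4)}
  {χ χ' : Finset (Fin 4) → ℂ} {J : Finset (Fin 4)}

/-- `f` keeps `Q` and permutes the four involutions. -/
def Rel (x : Fin 4 → End ℂ H) (Q : Submodule ℂ H) (f : End ℂ H) (π : Perm (Fin 4)) : Prop :=
  Keeps f Q ∧ ∀ i, f * x i = x (π i) * f

/-- `y` is a scalar on each joint eigenspace. -/
def Sc (x : Fin 4 → End ℂ H) (y : End ℂ H) (χ : Finset (Fin 4) → ℂ) : Prop :=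
  ∀ J, ∀ v ∈ JE x univ J, y v = χ J • v

/-- the sign of a letter. -/
def sg (i : Fin 4) (J : Finset (Fin 4)) : ℂ := if i ∈ J then -1 else 1

omit [FiniteDimensional ℂ H] in
lemma Rel.mul (h : Rel x Q f π) (k : Rel x Q g π') : Rel x Q (f * g) (π * π') :=
  ⟨h.1.mul k.1, fun i => by rw [mul_assoc, k.2, ← mul_assoc, h.2, mul_assoc, Perm.mul_apply]⟩

omit [FiniteDimensional ℂ H] in
lemma Rel.maps (h : Rel x Q f π) (J : Finset (Fin 4)) :
    ∀ v ∈ Q ⊓ JE x univ J, f v ∈ Q ⊓ JE x univ (J.map π.toEmbedding) := fun v hv => by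
  refine ⟨h.1 v hv.1, mem_JE.2 fun i _ => ?_⟩
  obtain ⟨i, rfl⟩ := π.surjective i
  have e : x (π i) (f v) = f (x i v) := (DFunLike.congr_fun (h.2 i) v).symm
  rw [e, mem_JE.1 hv.2 i (mem_univ i)]
  by_cases k : i ∈ J <;> simp [k]

omit [FiniteDimensional ℂ H] in
lemma Rel.keeps (h : Rel x Q f π) (e : J.map π.toEmbedding = J) : Keeps f (Q ⊓ JE x univ J) :=
  fun v hv => by have := h.maps J v hv; rwa [e] at this

omit [FiniteDimensional ℂ H] in
lemma sc_one : Sc x 1 fun _ => 1 := fun _ _ _ => by simp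

omit [FiniteDimensional ℂ H] in
lemma sc_x (i : Fin 4) : Sc x (x i) (sg i) := fun J v hv => by
  rw [mem_JE.1 hv i (mem_univ i), sg]
  split_ifs <;> simp

omit [FiniteDimensional ℂ H] in
lemma Sc.mul (h : Sc x y χ) (k : Sc x y' χ') : Sc x (y * y') fun J => χ J * χ' J :=
  fun J v hv => by rw [End.mul_apply, k J v hv, map_smul, h J v hv, smul_smul, mul_comm]

omit [FiniteDimensional ℂ H] in
lemma loc (h : Keeps f (Q ⊓ JE x univ J)) (k : Sc x y χ) :
    trOn (f * y) (Q ⊓ JE x univ J) = χ J * trOn f (Q ⊓ JE x univ J) := by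
  rw [← trOn_smul h]
  exact trOn_congr fun v hv => by rw [End.mul_apply, k J v hv.2, map_smul, LinearMap.smul_apply]

lemma tr_split (h1 : ∀ i, x i * x i = 1) (h2 : ∀ i, Rel x Q (x i) 1) (h : Rel x Q f π)
    (L : List (Finset (Fin 4))) (n : L.Nodup) (hL : ∀ J, J ∈ L ↔ J.map π.toEmbedding = J)
    (k : Sc x y χ) :
    trOn (f * y) Q = (L.map fun J => χ J * trOn f (Q ⊓ JE x univ J)).sum := by
  rw [JE_trOn (x := x) (S := univ) (fun i _ v _ => by rw [← End.mul_apply, h1, End.one_apply])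
    (fun i _ j _ v _ => DFunLike.congr_fun ((h2 i).2 j) v) (fun i _ => (h2 i).1)
    (fun J => J.map π.toEmbedding) (fun _ _ => subset_univ _) fun J _ v hv => by
      rw [End.mul_apply, k J v hv.2, map_smul]
      exact Submodule.smul_mem _ _ (h.maps J v hv), ← List.sum_toFinset _ n]
  refine sum_congr (by ext J; simp [hL]) fun J hJ => loc (h.keeps ?_) k
  exact (hL J).1 (List.mem_toFinset.1 hJ)

lemma nums (h1 : ∀ i, x i * x i = 1) (h2 : ∀ i, Rel x Q (x i) 1) (D : ℕ → ℕ) (σ : ℕ)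
    (hD : ∀ J, finrank ℂ (Q ⊓ JE x univ J : Submodule ℂ H) = D J.card)
    (t : Fin 4 → Fin 4 → End ℂ H) (ht : ∀ i j, Rel x Q (t i j) (swap i j))
    (tt : ∀ i j, t i j * t i j = 1) (tc : Commute (t 0 2) (t 1 3)) (t3 : (t 0 1 * t 1 2) ^ 3 = 1)
    (hdf : ∀ J i j, i ≠ j → (i ∈ J ↔ j ∈ J) →
      finrank ℂ (Q ⊓ JE x univ J ⊓ End.eigenspace (x i * t i j) (-1) : Submodule ℂ H) ≤ σ) :
    3 * (trOn 1 Q - trOn (x 0 * x 1) Q + 7 * trOn (x 2 * x 3) Q +
      9 * trOn (x 0 * x 1 * (x 2 * x 3)) Q - 2 * trOn (t 0 2 * t 1 3) Q -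
      6 * trOn (t 0 2 * t 1 3 * (x 0 * x 1)) Q - 6 * trOn (t 0 2 * t 1 3 * (x 2 * x 3)) Q -
      2 * trOn (t 0 2 * t 1 3 * (x 0 * x 1 * (x 2 * x 3))) Q).re +
    768 * (trOn 1 Q - trOn (x 0 * t 0 1) Q + trOn (x 0 * x 1) Q -
      trOn (x 0 * t 0 1 * (x 0 * x 1)) Q).re -
    128 * (trOn 1 Q + 3 * trOn (x 0 * x 1) Q - 4 * trOn (t 0 1 * t 1 2) Q).re ≤
    96 * ((D 2 : ℝ) - D 1 - D 3 + 1000 * σ) := by
  have r1 : Rel x Q 1 1 := ⟨fun _ h => h, fun i => by simp⟩
  have o : ∀ J, trOn 1 (Q ⊓ JE x univ J) = D J.card := fun J => by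
    rw [trOn_scalar (c := 1) fun v _ => by simp, hD, one_mul]
  have fx : ∀ (J : Finset (Fin 4)) i j, (i ∈ J ↔ j ∈ J) → J.map (swap i j).toEmbedding = J := by
    decide
  have ks : ∀ J i j, (i ∈ J ↔ j ∈ J) → Keeps (x i * t i j) (Q ⊓ JE x univ J) := fun J i j h =>
    ((h2 i).mul (ht i j)).keeps (by rw [one_mul, fx J i j h])
  have sq : ∀ J i j, (i ∈ J ↔ j ∈ J) → ∀ v ∈ Q ⊓ JE x univ J,
      (x i * t i j) ((x i * t i j) v) = v := fun J i j h v hv => by
    rw [← End.mul_apply, mul_assoc, ← mul_assoc (t i j), (ht i j).2, mul_assoc, tt, mul_one,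
      swap_apply_left, (sc_x i).mul (sc_x j) J v hv.2]
    by_cases k : i ∈ J <;> simp [sg, ← h, k]
  have e := (sc_x (x := x) 0).mul (sc_x 1)
  have e' := (sc_x (x := x) 2).mul (sc_x 3)
  have A := fun (y : End ℂ H) (χ : Finset (Fin 4) → ℂ) => tr_split (y := y) (χ := χ) h1 h2 r1
    [∅, {0}, {1}, {2}, {3}, {0, 1}, {0, 2}, {0, 3}, {1, 2}, {1, 3}, {2, 3}, {0, 1, 2}, {0, 1, 3},
      {0, 2, 3}, {1, 2, 3}, {0, 1, 2, 3}] (by decide) (by decide)
  have a1 := A _ _ sc_one
  have a2 := A _ _ e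
  have a3 := A _ _ e'
  have a4 := A _ _ (e.mul e')
  have rh := (ht 0 2).mul (ht 1 3)
  have B := fun (y : End ℂ H) (χ : Finset (Fin 4) → ℂ) => tr_split (y := y) (χ := χ) h1 h2 rh
    [∅, {0, 2}, {1, 3}, {0, 1, 2, 3}] (by decide) (by decide)
  have b1 := B _ _ sc_one
  have b2 := B _ _ e
  have b3 := B _ _ e'
  have b4 := B _ _ (e.mul e')
  have C := fun (y : End ℂ H) (χ : Finset (Fin 4) → ℂ) => tr_split (y := y) (χ := χ) h1 h2
    ((h2 0).mul (ht 0 1)) [∅, {2}, {3}, {0, 1}, {2, 3}, {0, 1, 2}, {0, 1, 3}, {0, 1, 2, 3}]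
    (by decide) (by decide)
  have c1 := C _ _ sc_one
  have c2 := C _ _ e
  have r3 := (ht 0 1).mul (ht 1 2)
  have d1 := tr_split h1 h2 r3 [∅, {3}, {0, 1, 2}, {0, 1, 2, 3}] (by decide) (by decide) sc_one
  have hb : ∀ J : Finset (Fin 4), (0 ∈ J ↔ 2 ∈ J) → (1 ∈ J ↔ 3 ∈ J) → (D J.card : ℝ) - 4 * σ ≤
      (sg 2 J * sg 3 J * trOn (t 0 2 * t 1 3) (Q ⊓ JE x univ J)).re := fun J k l => by
    have m1 : x 0 * t 0 2 * (x 1 * t 1 3) = x 0 * x 1 * (t 0 2 * t 1 3) := by
      rw [mul_assoc, ← mul_assoc (t 0 2), (ht 0 2).2]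
      simp only [mul_assoc]
      rfl
    have m2 : x 1 * t 1 3 * (x 0 * t 0 2) = x 0 * x 1 * (t 0 2 * t 1 3) := by
      rw [mul_assoc, ← mul_assoc (t 1 3), (ht 1 3).2, (h2 0).2 1, tc.eq]
      simp only [mul_assoc]
      rfl
    have m3 : t 0 2 * t 1 3 * (x 2 * x 3) = x 0 * x 1 * (t 0 2 * t 1 3) := by
      rw [← mul_assoc, rh.2, mul_assoc, rh.2, ← mul_assoc]
      rfl
    have := two_inv (ks J 0 2 k) (ks J 1 3 l) (sq J 0 2 k) (sq J 1 3 l) (m1.trans m2.symm)
      (hdf J 0 2 (by decide) k) (hdf J 1 3 (by decide) l)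
    rwa [hD, m1, ← m3, loc (rh.keeps (by clear this; revert J; decide)) e'] at this
  have hc : ∀ J : Finset (Fin 4), (0 ∈ J ↔ 1 ∈ J) → (D J.card : ℝ) - 2 * σ ≤
      (trOn (x 0 * t 0 1) (Q ⊓ JE x univ J)).re := fun J k => by
    have : (finrank ℂ (Q ⊓ JE x univ J ⊓ End.eigenspace (x 0 * t 0 1) (-1) : Submodule ℂ H) : ℝ) ≤
      σ := by exact_mod_cast hdf J 0 1 (by decide) k
    rw [(trOn_invol (ks J 0 1 k) (sq J 0 1 k)).1, hD]
    simp only [Complex.mul_re, Complex.re_ofNat, Complex.natCast_re, Complex.im_ofNat,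
      Complex.natCast_im, Complex.sub_re]
    linarith
  have hd : ∀ J : Finset (Fin 4), J.map (swap 0 1 * swap 1 2 : Perm (Fin 4)).toEmbedding = J →
      (trOn (t 0 1 * t 1 2) (Q ⊓ JE x univ J)).re ≤ D J.card := fun J k => by
    rw [← hD]
    exact (Complex.re_le_norm _).trans (norm_trOn_le (r3.keeps k) (k := 3) (by norm_num)
      fun v _ => by rw [t3, End.one_apply])
  have p1 := hb ∅ (by decide) (by decide)
  have p2 := hb {0, 2} (by decide) (by decide)
  have p3 := hb {1, 3} (by decide) (by decide)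
  have p4 := hb {0, 1, 2, 3} (by decide) (by decide)
  have q1 := hc ∅ (by decide)
  have q2 := hc {2} (by decide)
  have q3 := hc {3} (by decide)
  have q4 := hc {0, 1} (by decide)
  have q5 := hc {2, 3} (by decide)
  have q6 := hc {0, 1, 2} (by decide)
  have q7 := hc {0, 1, 3} (by decide)
  have q8 := hc {0, 1, 2, 3} (by decide)
  have s1 := hd ∅ (by decide)
  have s2 := hd {3} (by decide)
  have s3 := hd {0, 1, 2} (by decide)
  have s4 := hd {0, 1, 2, 3} (by decide)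
  rw [one_mul] at a1 a2 a3 a4
  rw [mul_one] at b1 c1 d1
  rw [a1, a2, a3, a4, b1, b2, b3, b4, c1, c2, d1]
  simp [sg, o] at p1 p2 p3 p4 q1 q2 q3 q4 q5 q6 q7 q8 s1 s2 s3 s4 ⊢
  have : (0 : ℝ) ≤ σ := Nat.cast_nonneg σ
  linarith

end four

end lin

/-- products of inner automorphisms of two disjoint free factors. -/
def UU {ι : Type} {X Y : Set ι} (d : Disjoint X Y) : Subgroup (A ι) where
  carrier := {g | ∃ α ∈ H79.X.IO X, ∃ β ∈ H79.X.IO Y, g = α * β}
  one_mem' := ⟨1, one_mem _, 1, one_mem _, (one_mul 1).symm⟩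
  mul_mem' := by
    rintro _ _ ⟨α, hα, β, hβ, rfl⟩ ⟨γ, hγ, δ, hδ, rfl⟩
    exact ⟨_, mul_mem hα hγ, _, mul_mem hβ hδ,
      (commute_On d (IO_le_On _ hγ) (IO_le_On _ hβ)).symm.mul_mul_mul_comm α δ⟩
  inv_mem' := by
    rintro _ ⟨α, hα, β, hβ, rfl⟩
    exact ⟨_, inv_mem hα, _, inv_mem hβ, (commute_On d (IO_le_On _ hα) (IO_le_On _ hβ)).mul_inv⟩

lemma le_left {ι : Type} {X Y : Set ι} (d : Disjoint X Y) :
    On X ≤ Subgroup.normalizer (UU d : Set (A ι)) := by
  refine Subgroup.le_normalizer_iff.2 ?_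
  rintro g hg _ ⟨α, hα, β, hβ, rfl⟩
  refine ⟨_, IO_conj hg hα, β, hβ, ?_⟩
  simp only [mul_assoc]
  rw [(commute_On d (inv_mem hg) (IO_le_On _ hβ)).eq]

lemma le_right {ι : Type} {X Y : Set ι} (d : Disjoint X Y) :
    On Y ≤ Subgroup.normalizer (UU d : Set (A ι)) := by
  refine Subgroup.le_normalizer_iff.2 ?_
  rintro g hg _ ⟨α, hα, β, hβ, rfl⟩
  refine ⟨α, hα, _, IO_conj hg hβ, ?_⟩
  simp only [← mul_assoc]
  rw [(commute_On d (IO_le_On _ hα) hg).eq]

lemma pm_mem {ι : Type} {X Y : Set ι} (d : Disjoint X Y) {s : Perm ι} (h : pm s * pm s = 1)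
    (h1 : s '' X = Y) (h2 : s '' Y = X) : pm s ∈ Subgroup.normalizer (UU d : Set (A ι)) := by
  have k : ∀ u ∈ UU d, pm s * u * (pm s)⁻¹ ∈ UU d := by
    rintro _ ⟨α, hα, β, hβ, rfl⟩
    have a1 := pm_IO_conj s hα
    have a2 := pm_IO_conj s hβ
    rw [h1] at a1
    rw [h2] at a2
    refine ⟨_, a2, _, a1, ?_⟩
    rw [(commute_On d (IO_le_On _ a2) (IO_le_On _ a1)).eq]
    group
  refine Subgroup.mem_normalizer_iff.2 fun u => ⟨k u, fun hu => ?_⟩
  have := k _ hu
  rwa [← mul_assoc, ← mul_assoc, h, one_mul, mul_assoc, ← mul_inv_rev, h, inv_one, mul_one] at this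

end Loc

open Loc in
theorem sloc (h1 : SGR) (h2 : SR1) (h3 : SLin) : SLoc := by
  intro ι H _ _ _ _ _ r a b a' b' I σ hU nd nc hdf star
  have nd' := nd
  simp only [List.nodup_cons, List.mem_cons, List.not_mem_nil, or_false, not_or, not_false_eq_true,
    List.nodup_nil, and_true] at nd'
  obtain ⟨⟨ab, aa', ab'⟩, ⟨ba', bb'⟩, a'b'⟩ := nd'
  obtain ⟨v, hv⟩ : ∃ v : Fin 4 ↪ ι, ∀ i, v i = ![a, b, a', b'] i :=
    ⟨⟨_, List.nodup_ofFn.1 (show (List.ofFn ![a, b, a', b']).Nodup from nd)⟩, fun _ => rfl⟩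
  have v0 : v 0 = a := hv 0
  have v1 : v 1 = b := hv 1
  have v2 : v 2 = a' := hv 2
  have v3 : v 3 = b' := hv 3
  have hT : ∀ s, s ∈ ({a, b, a', b'} : Finset ι) ↔ ∃ i, v i = s := fun s => by
    simp [Fin.exists_fin_succ, hv, eq_comm]
  generalize hTT : ({a, b, a', b'} : Finset ι) = T at *
  have vT : ∀ i, v i ∈ T := fun i => (hT _).2 ⟨i, rfl⟩
  have vS : ∀ i, v i ∉ univ \ T := fun i h => (mem_sdiff.1 h).2 (vT i)
  have vI : ∀ i, v i ∉ I := fun i h => vS i (nc.1 h)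
  have kM : ∀ α ∈ On (T : Set ι), Keeps (r α) (Sec r (univ \ T) I) := fun α hα =>
    keeps_Sec r I fun s hs => commute_On disjoint_compl_right hα (ep_mem_On (mem_sdiff.1 hs).2)
  have hE : ∀ J, Sec r (univ \ T) I ⊓ JE (fun i => r (ep (v i))) univ J =
      Sec r univ (I ∪ J.map v) := fun J => by
    ext w
    simp only [Submodule.mem_inf, Sec, mem_JE]
    refine ⟨fun ⟨k, l⟩ s _ => ?_, fun k => ⟨fun s hs => ?_, fun i _ => ?_⟩⟩
    · by_cases m : s ∈ T
      · obtain ⟨i, rfl⟩ := (hT s).1 m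
        simpa [vI i] using l i (mem_univ i)
      · have : s ∉ J.map v := fun h => by
          obtain ⟨i, -, rfl⟩ := mem_map.1 h
          exact m (vT i)
        simpa [this] using k s (mem_sdiff.2 ⟨mem_univ s, m⟩)
    · have : s ∉ J.map v := fun h => by
        obtain ⟨i, -, rfl⟩ := mem_map.1 h
        exact vS i hs
      simpa [this] using k s (mem_univ s)
    · simpa [vI i] using k (v i) (mem_univ _)
  obtain ⟨D, hD⟩ := (Function.factorsThrough_iff (f := Finset.card) (mu r)).1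
    fun _ _ h => mu_congr r h
  have dJ : ∀ J : Finset (Fin 4), mu r (I ∪ J.map v) = D (I.card + J.card) := fun J => by
    rw [hD, Function.comp_apply, card_union_of_disjoint, card_map]
    exact disjoint_right.2 fun s h => by
      obtain ⟨i, -, rfl⟩ := mem_map.1 h
      exact vI i
  have dj : Disjoint ({a, b} : Set ι) {a', b'} := by simp [Ne.symm, aa', ab', ba', bb']
  have dj' : Disjoint ({a, a'} : Set ι) {b, b'} := by simp [Ne.symm, ab, ab', ba', a'b']
  have c1 : Commute (ta a a') (ta b b') :=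
    commute_On dj' (ta_mem_On (by simp) (by simp)) (ta_mem_On (by simp) (by simp))
  have N := nums (x := fun i => r (ep (v i))) (Q := Sec r (univ \ T) I)
    (fun i => by rw [← map_mul, ep_sq, map_one])
    (fun i => ⟨kM _ (ep_mem_On (vT i)), fun j => ((ep_comm _ _).map r).eq⟩)
    (fun n => D (I.card + n)) σ (fun J => by rw [hE]; exact dJ J) (fun i j => r (ta (v i) (v j)))
    (fun i j => ⟨kM _ (ta_mem_On (vT i) (vT j)), fun k => by
      rw [← map_mul, ← map_mul, ta, pm_ep, v.injective.swap_apply]⟩)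
    (fun i j => by rw [← map_mul, ta_sq, map_one]) (by rw [v0, v1, v2, v3]; exact c1.map r)
    (by rw [v0, v1, v2, ← map_mul, ta, ta, ← map_mul, ← map_pow, ← map_pow, swap_comm a b,
      ← (Perm.isThreeCycle_swap_mul_swap_same (Ne.symm ab) ba' aa').orderOf, pow_orderOf_eq_one,
      map_one, map_one])
    fun J i j ij k => by
      rw [hE, ← map_mul]
      refine hdf _ ?_ _ (vT i) _ (vT j) (v.injective.ne ij) (by simpa [vI] using k)
      ext s
      simp only [mem_sdiff, mem_union, mem_map]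
      exact ⟨fun ⟨k, l⟩ => k.resolve_right fun ⟨i, _, e⟩ => l (e ▸ vT i),
        fun k => ⟨Or.inl k, (mem_sdiff.1 (nc.1 k)).2⟩⟩
  simp only [v0, v1, v2, v3, ← map_mul] at N
  have XT : ({a, b} : Set ι) ⊆ T := by rw [← hTT]; intro s; simp; tauto
  have YT : ({a', b'} : Set ι) ⊆ T := by rw [← hTT]; intro s; simp; tauto
  obtain ⟨G, hG⟩ : ∃ G : Subgroup (A ι),
    G = On (T : Set ι) ⊓ Subgroup.normalizer (UU dj : Set (A ι)) := ⟨_, rfl⟩
  have gX : On ({a, b} : Set ι) ≤ G := hG ▸ le_inf (On_mono XT) (le_left dj)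
  have gY : On ({a', b'} : Set ι) ≤ G := hG ▸ le_inf (On_mono YT) (le_right dj)
  have hh : ta a a' * ta b b' = pm (swap a a' * swap b b') := (map_mul pm _ _).symm
  have s1 : (swap a a' * swap b b') a = a' := by simp [swap_apply_of_ne_of_ne ab ab']
  have s2 : (swap a a' * swap b b') b = b' := by
    simp [swap_apply_of_ne_of_ne (Ne.symm ab') (Ne.symm a'b')]
  have s3 : (swap a a' * swap b b') a' = a := by simp [swap_apply_of_ne_of_ne (Ne.symm ba') a'b']
  have s4 : (swap a a' * swap b b') b' = b := by simp [swap_apply_of_ne_of_ne (Ne.symm ab) ba']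
  have h2' : ta a a' * ta b b' * (ta a a' * ta b b') = 1 := by
    rw [c1.symm.mul_mul_mul_comm, ta_sq, ta_sq, one_mul]
  have gh : ta a a' * ta b b' ∈ G := by
    refine hG ▸ ⟨mul_mem (ta_mem_On (v0 ▸ vT 0) (v2 ▸ vT 2)) (ta_mem_On (v1 ▸ vT 1) (v3 ▸ vT 3)), ?_⟩
    rw [hh] at h2' ⊢
    exact pm_mem dj h2' (by rw [Set.image_pair, s1, s2]) (by rw [Set.image_pair, s3, s4])
  obtain ⟨H', _, _, _, ρ, tr, triv, uni⟩ := h1 H G (r.comp G.subtype) (Sec r (univ \ T) I)
    ((UU dj).subgroupOf G) (fun g => kM _ (hG.le g.2).1)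
    ⟨fun n hn g => (Subgroup.mem_normalizer_iff.1 (hG.le g.2).2 n).1 hn⟩ (by
      rintro ⟨_, hu⟩ ⟨α, hα, β, hβ, rfl⟩
      refine Uni.on ?_ _
      change Uni (r (α * β))
      rw [map_mul]
      exact (hU.2 a b ab α hα).mul (hU.2 a' b' a'b' β hβ)
        ((commute_On dj (IO_le_On _ hα) (IO_le_On _ hβ)).map r))
  have m1 : a ∈ ({a, b} : Set ι) := by simp
  have m2 : b ∈ ({a, b} : Set ι) := by simp
  have m3 : a' ∈ ({a', b'} : Set ι) := by simp
  have m4 : b' ∈ ({a', b'} : Set ι) := by simp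
  have eX := mul_mem (ep_mem_On m1) (ep_mem_On m2)
  have eY := mul_mem (ep_mem_On m3) (ep_mem_On m4)
  have e2 : ep a * ep b * (ep a * ep b) = 1 := by
    rw [(ep_comm b a).mul_mul_mul_comm, ep_sq, ep_sq, one_mul]
  have un := hU.1 _ I nc a b (v0 ▸ vS 0) (v1 ▸ vS 1) ab
  have her : Commute (ρ ⟨_, gX eX⟩) (ρ ⟨_, gX (rh_mem_On m1 m2)⟩) := by
    have k := triv ⟨_, gX (kk_mem_On m1 m2)⟩ ⟨_, kk_mem_IO ab, 1, one_mem _, (mul_one _).symm⟩
    rw [Commute, SemiconjBy, ← one_mul (ρ _ * ρ _), ← k, ← map_mul, ← map_mul, ← map_mul]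
    refine congrArg ρ (Subtype.ext ?_)
    change kk a b * (ep a * ep b * rh a b) = rh a b * (ep a * ep b)
    rw [kk, ← epep_rh ab, mul_inv_rev, mul_assoc, mul_assoc, inv_mul_cancel, mul_one,
      inv_eq_of_mul_eq_one_right e2]
  have K := core h3 ρ (fun g => trOn (r g.1) (Sec r (univ \ T) I)) tr
    (S := ⟨_, gX (mul_mem (ep_mem_On m1) (ta_mem_On m1 m2))⟩) (r := ⟨_, gX (rh_mem_On m1 m2)⟩)
    (t := ⟨_, gX (ta_mem_On m1 m2)⟩) (h := ⟨_, gh⟩) (c := ⟨_, gX (cc_mem_On m1 m2)⟩)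
    (c' := ⟨_, gY (cc_mem_On m3 m4)⟩) (e := ⟨_, gX eX⟩) (e' := ⟨_, gY eY⟩)
    (Subtype.ext (cc_eq ab)) (Subtype.ext (epta_sq ab).symm) (Subtype.ext e2)
    (Subtype.ext (cc_cube ab)) (Subtype.ext h2') (Subtype.ext (ta_sq a b))
    (Subtype.ext (by
      change ta a a' * ta b b' * cc a b * (ta a a' * ta b b') = cc a' b'
      rw [hh] at h2' ⊢
      rw [pm_cc, s1, s2, mul_assoc, h2', mul_one]))
    (Subtype.ext (by
      change ta a a' * ta b b' * (ep a * ep b) * (ta a a' * ta b b') = ep a' * ep b'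
      rw [hh] at h2' ⊢
      rw [← mul_assoc (pm _), pm_ep, mul_assoc (ep _), pm_ep, s1, s2, mul_assoc, mul_assoc, h2',
        mul_one]))
    (Subtype.ext (commute_On dj (cc_mem_On m1 m2) (cc_mem_On m3 m4)))
    (Subtype.ext (commute_On dj (cc_mem_On m1 m2) eY)) (Subtype.ext (commute_On dj eX eY))
    (Subtype.ext (ta_cc ab)) (Subtype.ext (commute_On dj (ta_mem_On m1 m2) (cc_mem_On m3 m4)))
    (Subtype.ext (by
      change Commute (ta a b) (ta a a' * ta b b' * ta a b * (ta a a' * ta b b'))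
      rw [hh] at h2' ⊢
      rw [pm_ta, s1, s2, mul_assoc, h2', mul_one]
      exact commute_On dj (ta_mem_On m1 m2) (ta_mem_On m3 m4)))
    her (uni _ un.1)
  have R := h2 ι H r a b a' (Sec r (univ \ T) I) (by simp [ab, aa', ba'])
    (fun α hα => kM α (On_mono (by rw [← hTT]; intro s; simp; tauto) hα))
    (un.2 a' (v2 ▸ vS 2) (Ne.symm aa') (Ne.symm ba'))
  simp only [Subgroup.coe_mul, Subgroup.coe_one, map_one, R] at K
  have d1 : mu r (I ∪ {a}) = D (I.card + 1) := by simpa [v0] using dJ {0}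
  have d2 : mu r (I ∪ {a, b}) = D (I.card + 2) := by simpa [v0, v1] using dJ {0, 1}
  have d3 : mu r (I ∪ {a, b, a'}) = D (I.card + 3) := by simpa [v0, v1, v2] using dJ {0, 1, 2}
  rw [d1, d2, d3]
  rw [Complex.sub_re] at K
  have : (D (I.card + 1) : ℝ) + D (I.card + 3) ≤ D (I.card + 2) + 1000 * σ := by linarith
  exact_mod_cast this

end Pool.Agent.MP_3ce0a0_al.H51
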