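import Pool.Agent.MP_3ce0a0_al.H79.SpecS
import Pool.Agent.MP_3ce0a0_al.H90.Y

/-
Only edges with support of size at most one carry cycles: supports up to half of the rank.
-/

namespace Pool.Agent.MP_3ce0a0_al.H51

open Pool.Agent.MP_3ce0a0_al.H79 Pool.Agent.MP_3ce0a0_al.H90 Equiv

section
variable {ι Ω : Type} [Fintype ι] [DecidableEq ι] {P : WS ι (Perm Ω)} {k : ℕ} {s : Ω → Finset ι}

theorem swap_indep (hs : Supp P k s) (ω : Ω) {a b c d : ι} (hab : a ≠ b) (hcd : c ≠ d)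
    (ha : a ∉ s ω) (hb : b ∉ s ω) (hc : c ∉ s ω) (hd : d ∉ s ω) :
    P.π (swap a b) ω = P.π (swap c d) ω := by
  have h1 : P.π (swap c d * swap a b) ω = ω := by
    refine (hs.2.1 ω).1 _ ?_ fun x hx => ?_
    · rw [Perm.sign_mul, Perm.sign_swap hab, Perm.sign_swap hcd]
      simp
    · have hx' : x ∈ s ω := by simpa using hx
      have n1 : x ≠ a := fun e => ha (e ▸ hx')
      have n2 : x ≠ b := fun e => hb (e ▸ hx')
      have n3 : x ≠ c := fun e => hc (e ▸ hx')
      have n4 : x ≠ d := fun e => hd (e ▸ hx')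
      rw [Perm.mul_apply, swap_apply_of_ne_of_ne n1 n2, swap_apply_of_ne_of_ne n3 n4]
  have h2 : P.π (swap c d) (P.π (swap c d * swap a b) ω) = P.π (swap a b) ω := by
    rw [← Perm.mul_apply, ← map_mul, ← mul_assoc, swap_mul_self, one_mul]
  rw [← h2, h1]

theorem supp_swap (hs : Supp P k s) (ω : Ω) {a b : ι} (ha : a ∉ s ω) (hb : b ∉ s ω) :
    s (P.π (swap a b) ω) = s ω := by
  rw [hs.2.2.2.1]
  ext x
  rw [Finset.mem_map_equiv, symm_swap]
  by_cases h1 : x = a
  · rw [h1, swap_apply_left]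
    exact iff_of_false hb ha
  · by_cases h2 : x = b
    · rw [h2, swap_apply_right]
      exact iff_of_false ha hb
    · rw [swap_apply_of_ne_of_ne h1 h2]

theorem exists_off (hs : Supp P k s) (hn : k + 2 ≤ Fintype.card ι) (ω : Ω) :
    ∃ a b, a ≠ b ∧ a ∉ s ω ∧ b ∉ s ω := by
  have h1 := hs.1 ω
  have h2 : 1 < (s ω)ᶜ.card := by rw [Finset.card_compl]; omega
  obtain ⟨a, ha, b, hb, hab⟩ := Finset.one_lt_card.1 h2
  exact ⟨a, b, hab, Finset.mem_compl.1 ha, Finset.mem_compl.1 hb⟩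

/-- the involution given by the transpositions off the support. -/
theorem exists_bar (hs : Supp P k s) (hn : k + 2 ≤ Fintype.card ι) :
    ∃ g : Perm Ω, ∀ ω a b, a ≠ b → a ∉ s ω → b ∉ s ω → g ω = P.π (swap a b) ω := by
  choose a b hab ha hb using exists_off hs hn
  have key : ∀ ω c d, c ≠ d → c ∉ s ω → d ∉ s ω →
      P.π (swap (a ω) (b ω)) ω = P.π (swap c d) ω :=
    fun ω c d hcd hc hd => swap_indep hs ω (hab ω) hcd (ha ω) (hb ω) hc hd
  have inv : Function.Involutive fun ω => P.π (swap (a ω) (b ω)) ω := by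
    intro ω
    have e := supp_swap hs ω (ha ω) (hb ω)
    show P.π (swap (a (P.π (swap (a ω) (b ω)) ω)) (b (P.π (swap (a ω) (b ω)) ω)))
      (P.π (swap (a ω) (b ω)) ω) = ω
    rw [key _ (a ω) (b ω) (hab ω) (by rw [e]; exact ha ω) (by rw [e]; exact hb ω),
      ← Perm.mul_apply, ← map_mul, swap_mul_self, map_one, Perm.one_apply]
  exact ⟨inv.toPerm, key⟩

end

theorem cyc_comp {V E : Type} [Fintype E] {o t : E → V} (gV : Perm V) (gE : Perm E)
    (ho : ∀ e, o (gE e) = gV (o e)) (ht : ∀ e, t (gE e) = gV (t e)) {c : E → ℂ}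
    (hc : Cyc o t c) : Cyc o t fun e => c (gE e) := by
  classical
  intro v
  have h := hc (gV v)
  rw [← Equiv.sum_comp gE, ← Equiv.sum_comp gE (fun e => if o e = gV v then c e else 0)] at h
  simp only [ho, ht, EmbeddingLike.apply_eq_iff_eq] at h
  convert h

section
variable {ι V E : Type} [Fintype ι] [DecidableEq ι] {o t : E → V} {PV : WS ι (Perm V)} {k : ℕ}
  {sV : V → Finset ι} {sE : E → Finset ι}

/-- vertices avoiding small sets are linked by edges avoiding one of the sets. -/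
theorem link_off [Nonempty V] (hV : Supp PV k sV) (hn : 2 * k + 6 ≤ Fintype.card ι)
    (hC : ∀ S : Finset ι, 2 * k ≤ S.card → ∀ u v, sV u ⊆ S → sV v ⊆ S →
      Lnk o t (fun e => sE e ⊆ S) u v)
    (T T' : Finset ι) (hT : T.card ≤ 3) (hT' : T'.card ≤ 3) (u v : V) (hu : sV u ⊆ Tᶜ)
    (hv : sV v ⊆ T'ᶜ) (Q : E → Prop) (hQ : ∀ e, sE e ⊆ Tᶜ → Q e) (hQ' : ∀ e, sE e ⊆ T'ᶜ → Q e) :
    Lnk o t Q u v := by
  have h1 : k ≤ (T ∪ T')ᶜ.card := by
    have := Finset.card_union_le T T'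
    rw [Finset.card_compl]
    omega
  obtain ⟨u₀, hu₀⟩ := exists_supp_sub hV (T ∪ T')ᶜ h1
  have a1 := hC Tᶜ (by rw [Finset.card_compl]; omega) u u₀ hu
    (hu₀.trans (Finset.compl_subset_compl.2 Finset.subset_union_left))
  have a2 := hC T'ᶜ (by rw [Finset.card_compl]; omega) v u₀ hv
    (hu₀.trans (Finset.compl_subset_compl.2 Finset.subset_union_right))
  exact lnk_trans (lnk_mono hQ a1) (lnk_symm (lnk_mono hQ' a2))

end

theorem sub_compl3 {ι : Type} [Fintype ι] [DecidableEq ι] {X : Finset ι} {a b c : ι} :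
    X ⊆ ({a, b, c} : Finset ι)ᶜ ↔ a ∉ X ∧ b ∉ X ∧ c ∉ X := by
  constructor
  · intro h
    refine ⟨fun e => ?_, fun e => ?_, fun e => ?_⟩ <;> simpa using h e
  · rintro ⟨ha, hb, hc⟩ x hx
    simp only [Finset.mem_compl, Finset.mem_insert, Finset.mem_singleton, not_or]
    exact ⟨fun e => ha (e ▸ hx), fun e => hb (e ▸ hx), fun e => hc (e ▸ hx)⟩

section
variable {ι G V E : Type} [Fintype ι] [DecidableEq ι] [Group G] [MulAction G V] [MulAction G E]
  [Fintype V] [Fintype E] {m : ℕ} {π : Out (FG m) →* (HV m ≃ₗ[ℂ] HV m)} {ψ : G →* Out (FG m)}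
  {o t : E → V} {j : HV m →ₗ[ℂ] (E → ℂ)} {w : WS ι G} {N : NS ι (Out (FG m))} {k : ℕ}
  {sV : V → Finset ι} {sE : E → Finset ι}

omit [Fintype V] in
theorem splits (h1 : SConn2) (hA : RealA π ψ o t j)
    (hV : Supp (w.map (MulAction.toPermHom G V)) k sV)
    (hE : Supp (w.map (MulAction.toPermHom G E)) k sE) (hn : 2 * k + 10 ≤ Fintype.card ι) :
    Splits (w.map (MulAction.toPermHom G E)) sE j := by
  have hG := grw (w := w) hA
  have hC := h1 ι V E o t _ _ k sV sE (by omega) hG hV hE hA.2.2.2.1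
  obtain ⟨gV, hgV⟩ := exists_bar hV (by omega)
  obtain ⟨gE, hgE⟩ := exists_bar hE (by omega)
  intro h
  have hc : Cyc o t fun e => j h (gE e) := by
    refine cyc_comp gV gE (fun e => ?_) (fun e => ?_) ((hA.2.2.2.2.2.2.1 _).1 ⟨h, rfl⟩)
    · obtain ⟨a, b, hab, ha, hb⟩ := exists_off hE (by omega) e
      rw [hgE e a b hab ha hb, hgV (o e) a b hab (fun x => ha ((hC.1 e).1 x))
        (fun x => hb ((hC.1 e).1 x)), hG.1]
    · obtain ⟨a, b, hab, ha, hb⟩ := exists_off hE (by omega) e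
      rw [hgE e a b hab ha hb, hgV (t e) a b hab (fun x => ha ((hC.1 e).2 x))
        (fun x => hb ((hC.1 e).2 x)), hG.2.1]
  obtain ⟨h', hh'⟩ := (hA.2.2.2.2.2.2.1 _).2 hc
  refine ⟨h', fun ω a b hab ha hb => ?_⟩
  rw [hh', ← hgE ω a b hab ha hb]

/-- oddness on edges of maximal support. -/
theorem top2 (h1 : SConn2) (h2 : STop2) (h4 : SGr) (hε : ∀ a, ψ (w.ε a) = N.ε a)
    (hπ : ∀ σ, ψ (w.π σ) = N.π σ) (hA : RealA π ψ o t j)
    (hV : Supp (w.map (MulAction.toPermHom G V)) k sV)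
    (hE : Supp (w.map (MulAction.toPermHom G E)) k sE) (hn : 2 * k + 10 ≤ Fintype.card ι)
    (d : ℕ) (hd : ∀ h e, j h e ≠ 0 → (sE e).card ≤ d) (h : HV m)
    (e : E) (i f : ι) (he : (sE e).card = d) (hi : i ∈ sE e) (hf : f ∉ sE e) :
    j h (w.ε i • w.ε f • e) = -j h e := by
  classical
  have hC := h1 ι V E o t _ _ k sV sE (by omega) (grw (w := w) hA) hV hE hA.2.2.2.1
  have : Nonempty V := hA.2.2.1
  have hemb : Emb (N.map π).toWS (w.map (MulAction.toPermHom G E)) j := by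
    refine ⟨hA.2.2.2.2.2.1, fun σ z ω => ?_, fun a z ω => ?_⟩
    · have := hA.2.2.2.2.2.2.2.1 (w.π σ) z ω
      rw [hπ] at this
      exact this
    · have := hA.2.2.2.2.2.2.2.1 (w.ε a) z ω
      rw [hε] at this
      exact this
  obtain ⟨a', b, ha', hb, hodd⟩ := h2 ι (HV m) E (N.map π) (w.map (MulAction.toPermHom G E)) j k
    sE (sE e) i hemb hE (by omega) (splits h1 hA hV hE hn) (hE.1 e) hi
    (fun z x hx => by rw [he]; exact hd z x hx)
  set c : E → ℂ := fun x => if sE e ⊆ sE x then j h x else 0 with hc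
  have hc0 : ∀ x, c x ≠ 0 → sE x = sE e := by
    intro x hx
    by_cases hs : sE e ⊆ sE x
    · have : j h x ≠ 0 := by simpa [hc, hs] using hx
      exact (Finset.eq_of_subset_of_card_le hs (by rw [he]; exact hd h x this)).symm
    · exact absurd (by simp [hc, hs]) hx
  obtain ⟨c', hc', hcc⟩ := (h4 V E o t).1
    (fun v => ∃ y ∈ sE e, a' ∉ sV v ∧ y ∉ sV v ∧ b y ∉ sV v)
    (fun x => ∃ y ∈ sE e, a' ∉ sE x ∧ y ∉ sE x ∧ b y ∉ sE x) c
    (by
      intro v hv
      have a1 : sV v ⊆ sE e := by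
        obtain ⟨x, hx, hx0⟩ := exists_of_bd_ne hv
        have := hc0 x hx0
        rcases hx with rfl | rfl
        · exact (hC.1 x).1.trans this.subset
        · exact (hC.1 x).2.trans this.subset
      have a2 : ¬ sE e ⊆ sV v := by
        intro hI
        apply hv
        rw [bd_congr (c' := j h) fun x hx => by
          have : sE e ⊆ sE x := by
            rcases hx with rfl | rfl
            · exact hI.trans (hC.1 x).1
            · exact hI.trans (hC.1 x).2
          simp [hc, this]]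
        exact bd_eq_zero_of_cyc ((hA.2.2.2.2.2.2.1 _).1 ⟨h, rfl⟩) v
      obtain ⟨y, hy, hy'⟩ := Finset.not_subset.1 a2
      exact ⟨y, hy, fun x => ha' (a1 x), hy', fun x => hb y (a1 x)⟩)
    (by
      rintro u v ⟨y, hy, hu⟩ ⟨y', hy', hv⟩
      exact link_off hV (by omega) hC.2 {a', y, b y} {a', y', b y'} Finset.card_le_three
        Finset.card_le_three u v (sub_compl3.2 hu) (sub_compl3.2 hv) _
        (fun x hx => ⟨y, hy, sub_compl3.1 hx⟩) (fun x hx => ⟨y', hy', sub_compl3.1 hx⟩))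
  obtain ⟨h', rfl⟩ := (hA.2.2.2.2.2.2.1 c').2 hc'
  have := hodd h'
    (by
      intro x hx
      by_cases hq : ∃ y ∈ sE e, a' ∉ sE x ∧ y ∉ sE x ∧ b y ∉ sE x
      · obtain ⟨y, hy, a1, a2⟩ := hq
        exact ⟨a1, Or.inr ⟨y, hy, a2⟩⟩
      · rw [hcc x hq] at hx
        rw [hc0 x hx]
        exact ⟨ha', Or.inl rfl⟩)
    e f rfl hf
  change j h' (w.ε i • w.ε f • e) = -j h' e at this
  rw [hcc e (fun ⟨y, hy, hq⟩ => hq.2.1 hy),
    hcc _ (fun ⟨y, hy, hq⟩ => hq.2.1 (by rw [supp_εε hE]; exact hy))] at this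
  simpa [hc, supp_εε hE] using this

/-- relative cycles lift to cycles. -/
theorem lift_rel2 (h1 : SConn2) (h4 : SGr) (hA : RealA π ψ o t j)
    (hV : Supp (w.map (MulAction.toPermHom G V)) k sV)
    (hE : Supp (w.map (MulAction.toPermHom G E)) k sE) (hn : 2 * k + 10 ≤ Fintype.card ι)
    (I : Finset ι) (c : E → ℂ) (hc : ∀ v, I ⊆ sV v → bd o t c v = 0) :
    ∃ h, ∀ e, I ⊆ sE e → j h e = c e := by
  have hC := h1 ι V E o t _ _ k sV sE (by omega) (grw (w := w) hA) hV hE hA.2.2.2.1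
  have : Nonempty V := hA.2.2.1
  obtain ⟨c', hc', hcc⟩ := (h4 V E o t).1 (fun v => ¬ I ⊆ sV v)
    (fun x => ¬ I ⊆ sE x) c (fun v hv hI => hv (hc v hI))
    (by
      intro u v hu hv
      obtain ⟨y, hy, hu⟩ := Finset.not_subset.1 hu
      obtain ⟨y', hy', hv⟩ := Finset.not_subset.1 hv
      exact link_off hV (by omega) hC.2 {y, y, y} {y', y', y'} Finset.card_le_three
        Finset.card_le_three u v (sub_compl3.2 ⟨hu, hu, hu⟩) (sub_compl3.2 ⟨hv, hv, hv⟩) _
        (fun x hx hI => (sub_compl3.1 hx).1 (hI hy)) (fun x hx hI => (sub_compl3.1 hx).1 (hI hy')))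
  obtain ⟨h', rfl⟩ := (hA.2.2.2.2.2.2.1 c').2 hc'
  exact ⟨h', fun e he => hcc e fun hq => hq he⟩

omit [Fintype V] [Fintype E] in
/-- even permutations fixing `i` and `f` preserve the components of the fixed subgraph. -/
theorem small2 (h3 : SSmall2) (hε : ∀ a, ψ (w.ε a) = N.ε a) (hπ : ∀ σ, ψ (w.π σ) = N.π σ)
    (hCr : RealC ψ o t) (hV : Supp (w.map (MulAction.toPermHom G V)) k sV)
    (hn : 2 * k + 10 ≤ Fintype.card ι) (i f : ι) (σ : Perm {a // a ≠ i ∧ a ≠ f})
    (hσ : Perm.sign σ = 1) (v : V) (hv : (w.ε i * w.ε f) • v = v) :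
    Lnk o t (fun e => (w.ε i * w.ε f) • e = e) v (w.π (Perm.ofSubtype σ) • v) := by
  classical
  obtain ⟨Ω, hfin, q, A, hq, hqL, hAq⟩ := hCr (w.ε i * w.ε f)
  let C := Subgroup.centralizer {ψ (w.ε i * w.ε f)}
  have hCdef : C = Subgroup.centralizer {ψ (w.ε i * w.ε f)} := rfl
  have hmem : ∀ x : Out (FG m), Commute (N.ε i) x → Commute (N.ε f) x → x ∈ C := by
    intro x a1 a2
    rw [hCdef, Subgroup.mem_centralizer_singleton_iff, map_mul, hε, hε]
    exact (a1.mul_left a2).symm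
  have hcπ : ∀ τ : Perm {a // a ≠ i ∧ a ≠ f},
      Commute (w.π (Perm.ofSubtype τ)) (w.ε i * w.ε f) := by
    intro τ
    have a1 := w.π_ε (Perm.ofSubtype τ) i
    have a2 := w.π_ε (Perm.ofSubtype τ) f
    rw [Perm.ofSubtype_apply_of_not_mem τ (by simp)] at a1 a2
    exact Commute.mul_right a1 a2
  have hcε : ∀ a b, Commute (w.ε a * w.ε b) (w.ε i * w.ε f) := fun a b =>
    Commute.mul_left (Commute.mul_right (w.ε_comm a i) (w.ε_comm a f))
      (Commute.mul_right (w.ε_comm b i) (w.ε_comm b f))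
  have hmemψ : ∀ c : G, Commute c (w.ε i * w.ε f) → ψ c ∈ C := by
    intro c hc
    rw [hCdef, Subgroup.mem_centralizer_singleton_iff]
    exact hc.map ψ
  have hfix : ∀ c : G, Commute c (w.ε i * w.ε f) → ∀ x : V, (w.ε i * w.ε f) • x = x →
      (w.ε i * w.ε f) • c • x = c • x := by
    intro c hc x hx
    rw [← mul_smul, ← hc.eq, mul_smul, hx]
  let N₀ := restr N (fun a => a ≠ i ∧ a ≠ f) C
    (fun a _ => hmem _ (N.ε_comm i a) (N.ε_comm f a))
    (fun τ => by rw [← hπ]; exact hmemψ _ (hcπ τ))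
    (fun a b ha hb hab => hmem _ (N.ε_other a b i hab ha.1.symm hb.1.symm)
      (N.ε_other a b f hab ha.2.symm hb.2.symm))
    (fun a b ha hb hab => hmem _ (ε_comm_lam N hab ha.1.symm hb.1.symm)
      (ε_comm_lam N hab ha.2.symm hb.2.symm))
  have e1 : ∀ (τ : Perm {a // a ≠ i ∧ a ≠ f}) (x : V) (hx : (w.ε i * w.ε f) • x = x),
      (N₀.map A).π τ (q ⟨x, hx⟩) = q ⟨w.π (Perm.ofSubtype τ) • x, hfix _ (hcπ τ) x hx⟩ := by
    intro τ x hx
    rw [← hAq _ (hmemψ _ (hcπ τ)) (hcπ τ) x hx]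
    have : N₀.π τ = ⟨ψ (w.π (Perm.ofSubtype τ)), hmemψ _ (hcπ τ)⟩ := Subtype.ext (hπ _).symm
    rw [← this]
    rfl
  have e2 : ∀ (a b : {a // a ≠ i ∧ a ≠ f}) (x : V) (hx : (w.ε i * w.ε f) • x = x),
      (N₀.map A).ε a ((N₀.map A).ε b (q ⟨x, hx⟩)) =
        q ⟨(w.ε a * w.ε b) • x, hfix _ (hcε a b) x hx⟩ := by
    intro a b x hx
    rw [← hAq _ (hmemψ _ (hcε a b)) (hcε a b) x hx]
    have : N₀.ε a * N₀.ε b = ⟨ψ (w.ε a * w.ε b), hmemψ _ (hcε a b)⟩ :=
      Subtype.ext (by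
        show N.ε a * N.ε b = ψ (w.ε a * w.ε b)
        rw [map_mul, hε, hε])
    rw [← this, map_mul]
    rfl
  have hcard : Fintype.card ι ≤ Fintype.card {a // a ≠ i ∧ a ≠ f} + 2 := by
    rw [Fintype.card_subtype]
    have h1 : (Finset.univ : Finset ι) ⊆
        (Finset.univ.filter fun a => a ≠ i ∧ a ≠ f) ∪ {i, f} := by
      intro a _
      by_cases h : a ≠ i ∧ a ≠ f
      · simp [h]
      · have : a = i ∨ a = f := by tauto
        exact Finset.mem_union_right _ (by simpa using this)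
    have h2 := Finset.card_le_card h1
    have h3 := Finset.card_union_le (Finset.univ.filter fun a => a ≠ i ∧ a ≠ f) {i, f}
    have h4 : ({i, f} : Finset ι).card ≤ 2 := Finset.card_le_two
    rw [Finset.card_univ] at h2
    omega
  have := h3 {a // a ≠ i ∧ a ≠ f} Ω (N₀.map A) k (by omega)
    (by
      intro ω
      obtain ⟨⟨x, hx⟩, rfl⟩ := hq ω
      refine ⟨((sV x).subtype fun a => a ≠ i ∧ a ≠ f)ᶜ, ?_, fun τ hτ hf => ?_,
        fun a ha b hb => ?_⟩
      · rw [compl_compl, Finset.card_subtype]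
        exact (Finset.card_filter_le _ _).trans_lt (hV.1 x)
      · rw [e1]
        congr 1
        apply Subtype.ext
        refine (hV.2.1 x).1 (Perm.ofSubtype τ) (by rw [Perm.sign_ofSubtype]; exact hτ) ?_
        intro a ha
        by_cases hp : a ≠ i ∧ a ≠ f
        · rw [Perm.ofSubtype_apply_of_mem τ hp, hf ⟨a, hp⟩ (by simpa using ha)]
        · exact Perm.ofSubtype_apply_of_not_mem τ hp
      · rw [e2]
        congr 1
        apply Subtype.ext
        have := (hV.2.1 x).2 a (by simpa using ha) b (by simpa using hb)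
        show (w.ε a * w.ε b) • x = x
        rw [mul_smul]
        exact this)
    σ hσ (q ⟨v, hv⟩)
  rw [e1] at this
  exact (hqL _ _).1 this.symm

theorem card_le_one2 (h1 : SConn2) (h2 : STop2) (h3 : SSmall2) (h4 : SGr)
    (hε : ∀ a, ψ (w.ε a) = N.ε a) (hπ : ∀ σ, ψ (w.π σ) = N.π σ) (hA : RealA π ψ o t j)
    (hCr : RealC ψ o t)
    (hV : Supp (w.map (MulAction.toPermHom G V)) k sV)
    (hE : Supp (w.map (MulAction.toPermHom G E)) k sE) (hn : 2 * k + 10 ≤ Fintype.card ι) :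
    ∀ h e, j h e ≠ 0 → (sE e).card ≤ 1 := by
  classical
  intro h₀ e₀ he₀
  have hC := h1 ι V E o t _ _ k sV sE (by omega) (grw (w := w) hA) hV hE hA.2.2.2.1
  have : Nonempty V := hA.2.2.1
  obtain ⟨e, he, hmax⟩ := Finset.exists_max_image
    (Finset.univ.filter fun x => ∃ h, j h x ≠ 0) (fun x => (sE x).card)
    ⟨e₀, Finset.mem_filter.2 ⟨Finset.mem_univ _, h₀, he₀⟩⟩
  obtain ⟨h, hh⟩ := (Finset.mem_filter.1 he).2
  have hd : ∀ h x, j h x ≠ 0 → (sE x).card ≤ (sE e).card := fun h x hx =>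
    hmax x (Finset.mem_filter.2 ⟨Finset.mem_univ _, h, hx⟩)
  refine (hd h₀ e₀ he₀).trans ?_
  by_contra hlt
  obtain ⟨i, hi, i₁, hi₁, hii⟩ := Finset.one_lt_card.1 (not_le.1 hlt)
  have hk := hE.1 e
  obtain ⟨f, hf⟩ : ∃ f, f ∉ sE e := by
    by_contra hcon
    have : sE e = Finset.univ := Finset.eq_univ_iff_forall.2 fun a => by
      by_contra h0; exact hcon ⟨a, h0⟩
    rw [this, Finset.card_univ] at hk
    omega
  have sV' : ∀ x : V, sV ((w.ε i * w.ε f) • x) = sV x := fun x => by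
    rw [mul_smul]; exact supp_εε hV i f x
  have sE' : ∀ x : E, sE ((w.ε i * w.ε f) • x) = sE x := fun x => by
    rw [mul_smul]; exact supp_εε hE i f x
  obtain ⟨v, hv, hgv, hL⟩ := (h4 V E o t).2.1 (MulAction.toPerm (w.ε i * w.ε f))
    (MulAction.toPerm (w.ε i * w.ε f)) (fun v => sE e ⊆ sV v) (fun x => sE e ⊆ sE x)
    (fun x => hA.1 _ x) (fun x => hA.2.1 _ x)
    (fun v => by rw [MulAction.toPerm_apply, sV']) (fun x => by rw [MulAction.toPerm_apply, sE'])
    (fun x hx => hx.elim (fun a => a.trans (hC.1 x).1) fun a => a.trans (hC.1 x).2)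
    hA.2.2.2.1
    (by
      obtain ⟨u, hu⟩ := exists_supp_sub hV (Finset.univ.erase i)
        (by rw [Finset.card_erase_of_mem (Finset.mem_univ _), Finset.card_univ]; omega)
      exact ⟨u, fun a => Finset.notMem_erase i _ (hu (a hi))⟩)
    (by
      intro c hc hbd x
      rw [MulAction.toPerm_apply]
      obtain ⟨h', hh'⟩ := lift_rel2 h1 h4 hA hV hE hn (sE e) c hbd
      by_cases hx : sE e ⊆ sE x
      · rw [← hh' x hx, ← hh' _ (by rw [sE']; exact hx)]
        by_cases hx' : (sE x).card ≤ (sE e).card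
        · have hs : sE e = sE x := Finset.eq_of_subset_of_card_le hx hx'
          rw [mul_smul]
          exact top2 h1 h2 h4 hε hπ hA hV hE hn _ hd h' x i f (by rw [hs]) (hs ▸ hi)
            (hs ▸ hf)
        · have a1 : j h' x = 0 := by
            by_contra h0; exact hx' (hd h' x h0)
          have a2 : j h' ((w.ε i * w.ε f) • x) = 0 := by
            by_contra h0
            have := hd h' _ h0
            rw [sE'] at this
            exact hx' this
          rw [a1, a2, neg_zero]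
      · have a1 : c x = 0 := by
          by_contra h0; exact hx (hc x h0)
        have a2 : c ((w.ε i * w.ε f) • x) = 0 := by
          by_contra h0
          have := hc _ h0
          rw [sE'] at this
          exact hx this
        rw [a1, a2, neg_zero])
    (by
      refine ⟨fun x => if sE e ⊆ sE x then j h x else 0, fun h0 => hh ?_, fun x hx => ?_,
        fun v hI => ?_⟩
      · simpa using congrFun h0 e
      · by_contra h0
        exact hx (if_neg h0)
      · rw [bd_congr (c' := j h) fun x hx => by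
          have : sE e ⊆ sE x := by
            rcases hx with rfl | rfl
            · exact hI.trans (hC.1 x).1
            · exact hI.trans (hC.1 x).2
          simp [this]]
        exact bd_eq_zero_of_cyc ((hA.2.2.2.2.2.2.1 _).1 ⟨h, rfl⟩) v)
  have hkv := hV.1 v
  have h3c : 2 < (insert i (insert f (sV v)))ᶜ.card := by
    rw [Finset.card_compl]
    have a1 := Finset.card_insert_le i (insert f (sV v))
    have a2 := Finset.card_insert_le f (sV v)
    omega
  obtain ⟨b, c, c', hb, hc, hc', hbc, hbc', hcc'⟩ := Finset.two_lt_card_iff.1 h3c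
  simp only [Finset.mem_compl, Finset.mem_insert, not_or] at hb hc hc'
  have hi₁' : i₁ ≠ i ∧ i₁ ≠ f := ⟨hii.symm, fun a => hf (a ▸ hi₁)⟩
  let b' : {a // a ≠ i ∧ a ≠ f} := ⟨b, hb.1, hb.2.1⟩
  let x' : {a // a ≠ i ∧ a ≠ f} := ⟨c, hc.1, hc.2.1⟩
  let y' : {a // a ≠ i ∧ a ≠ f} := ⟨c', hc'.1, hc'.2.1⟩
  let i' : {a // a ≠ i ∧ a ≠ f} := ⟨i₁, hi₁'⟩
  have hib : i' ≠ b' := fun a => hb.2.2 (by
    have : i₁ = b := congrArg Subtype.val a
    exact this ▸ hv hi₁)
  have hxy : x' ≠ y' := fun a => hcc' (congrArg Subtype.val a)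
  have hL' := hL _ (small2 h3 hε hπ hCr hV hn i f (swap i' b' * swap x' y')
    (by rw [Perm.sign_mul, Perm.sign_swap hib, Perm.sign_swap hxy]; simp) v hgv)
  have hs : sV (w.π (Perm.ofSubtype (swap i' b' * swap x' y')) • v) =
      (sV v).map (Perm.ofSubtype (swap i' b' * swap x' y')).toEmbedding := hV.2.2.2.1 _ v
  rw [hs] at hL'
  obtain ⟨a, ha, hai⟩ := Finset.mem_map.1 (hL' hi₁)
  have hb1 : Perm.ofSubtype (swap i' b' * swap x' y') b = i₁ := by
    have := Perm.ofSubtype_apply_coe (swap i' b' * swap x' y') b'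
    have b1 : b' ≠ x' := fun a => hbc (congrArg Subtype.val a)
    have b2 : b' ≠ y' := fun a => hbc' (congrArg Subtype.val a)
    rw [Perm.mul_apply, swap_apply_of_ne_of_ne b1 b2, swap_apply_right] at this
    exact this
  have : a = b := (Perm.ofSubtype (swap i' b' * swap x' y')).injective (hai.trans hb1.symm)
  exact hb.2.2 (this ▸ ha)

end

theorem sy2 (h1 : SConn2) (h2 : STop2) (h3 : SSmall2) (h4 : SGr) : SY2 := by
  intro ι G V E _ _ _ _ _ _ _ m π ψ o t j w N k sV sE hε hπ hA hCr hV hE hn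
  have hle := card_le_one2 h1 h2 h3 h4 hε hπ hA hCr hV hE hn
  refine ⟨hle, fun h e i f he hf => ?_, fun h0 e => ?_⟩
  · exact top2 h1 h2 h4 hε hπ hA hV hE hn 1 hle h e i f (by rw [he, Finset.card_singleton])
      (by rw [he]; exact Finset.mem_singleton_self i) (by rw [he]; simpa using hf)
  · have hC := h1 ι V E o t _ _ k sV sE (by omega) (grw (w := w) hA) hV hE hA.2.2.2.1
    have : Nonempty V := hA.2.2.1
    have hk := hE.1 e
    refine Finset.eq_empty_iff_forall_notMem.2 fun a ha => ?_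
    refine (h4 V E o t).2.2.1 (fun v => {a} ⊆ sV v) (fun x => {a} ⊆ sE x)
      (fun x hx => hx.elim (fun a => a.trans (hC.1 x).1) fun a => a.trans (hC.1 x).2)
      hA.2.2.2.1 ?_ hA.2.2.2.2.1 ?_ e (Finset.singleton_subset_iff.2 ha)
    · obtain ⟨u, hu⟩ := exists_supp_sub hV (Finset.univ.erase a)
        (by rw [Finset.card_erase_of_mem (Finset.mem_univ _), Finset.card_univ]; omega)
      exact ⟨u, fun h => Finset.notMem_erase a _ (hu (h (Finset.mem_singleton_self a)))⟩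
    · intro c hc hbd
      obtain ⟨h', hh'⟩ := lift_rel2 h1 h4 hA hV hE hn {a} c hbd
      funext x
      by_contra hx
      have a1 := hc x hx
      have a2 := h0 h' x (by rw [hh' x a1]; exact hx)
      rw [a2] at a1
      exact Finset.notMem_empty a (a1 (Finset.mem_singleton_self a))

end Pool.Agent.MP_3ce0a0_al.H51
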